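import Pool.Agent.P.MP_2c2d1a_pr.Asm
import Pool.Agent.P.MP_2c2d1a_pr.Det
import Pool.Agent.P.MP_2c2d1a_pr.Vol
import Pool.Agent.P.MP_2c2d1a_pr.One
import Pool.Agent.P.MP_2c2d1a_pr.Ind
import Pool.Agent.P.MP_2c2d1a_pr.Many
import Pool.Agent.P.MP_2c2d1a_pr.Clu
import Pool.Agent.P.MP_2c2d1a_pr.Dis
import Pool.Agent.P.MP_2c2d1a_pr.Net
import Pool.Agent.P.MP_2c2d1a_pr.Path
import Pool.Agent.P.MP_2c2d1a_pr.Gen
import Pool.Agent.P.MP_2c2d1a_pr.Conn
import Pool.Agent.P.MP_2c2d1a_pr.Nbr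
import Pool.Agent.P.MP_2c2d1a_pr.Graph
import Pool.Agent.P.MP_2c2d1a_pr.Fin
import Pool.Agent.P.MP_2c2d1a_pr.Par
import Pool.Agent.P.MP_2c2d1a_pr.Prob
import Pool.Agent.P.MP_2c2d1a_pr.Exist

open MeasureTheory Filter Topology
open scoped ENNReal

namespace Pool.Agent.Results.MP_2c2d1a_pr.NoExpansion

open PV2c

/-- The hypothesis of `result` is not empty: such a process exists. -/
theorem process_exists (n : ℕ) (lam : ℝ) (hlam : 0 < lam) :
    ∃ (Ω : Type) (_ : MeasurableSpace Ω) (P : Measure Ω) (Z : Ω → Set (Hyp n)),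
      IsProbabilityMeasure P ∧ IsPPP P Z (ENNReal.ofReal lam • hvol n) :=
  exists_ppp n lam hlam

/-- In every dimension `d = n + 1 ≥ 3` and for every intensity, the dual graph of the
Poisson-Voronoi tessellation of hyperbolic space, almost surely connected, locally finite and
infinite, has anchored expansion constant zero. -/
theorem result (n : ℕ) (hn : 2 ≤ n) (lam : ℝ) (hlam : 0 < lam)
    (Ω : Type) [MeasurableSpace Ω] (P : Measure Ω) [IsProbabilityMeasure P]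
    (Z : Ω → Set (Hyp n)) (hZ : IsPPP P Z (ENNReal.ofReal lam • hvol n)) :
    ∀ᵐ ω ∂P, (dual (Z ω)).Connected ∧ (∀ v, ((dual (Z ω)).neighborSet v).Finite) ∧
      (Z ω).Infinite ∧ ∀ ρ : Z ω, Tendsto (isoInf (dual (Z ω)) ρ) atTop (𝓝 0) :=
  asm (bDet bClu bDis bNet bPath (bConn bGen) bNbr bGraph) bFin bPar
    (bProb bVol bOne bInd bMany bDis bNet) n hn lam hlam Ω P Z hZ

end Pool.Agent.Results.MP_2c2d1a_pr.NoExpansion
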