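import Pool.Agent.P.MP_2c2d1a_pr.SkAsm
import Pool.Agent.P.MP_2c2d1a_pr.SkEdge
import Pool.Agent.P.MP_2c2d1a_pr.SkCon
import Pool.Agent.P.MP_2c2d1a_pr.SkCnt
import Pool.Agent.P.MP_2c2d1a_pr.SkIn1
import Pool.Agent.P.MP_2c2d1a_pr.SkIn2
import Pool.Agent.P.MP_2c2d1a_pr.SkIn3
import Pool.Agent.P.MP_2c2d1a_pr.SkCamp
import Pool.Agent.P.MP_2c2d1a_pr.SkNull
import Pool.Agent.P.MP_2c2d1a_pr.SkDet
import Pool.Agent.P.MP_2c2d1a_pr.Vol
import Pool.Agent.P.MP_2c2d1a_pr.One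
import Pool.Agent.P.MP_2c2d1a_pr.Ind
import Pool.Agent.P.MP_2c2d1a_pr.Many
import Pool.Agent.P.MP_2c2d1a_pr.Clu
import Pool.Agent.P.MP_2c2d1a_pr.Dis
import Pool.Agent.P.MP_2c2d1a_pr.Net
import Pool.Agent.P.MP_2c2d1a_pr.Path
import Pool.Agent.P.MP_2c2d1a_pr.Gen
import Pool.Agent.P.MP_2c2d1a_pr.Conn
import Pool.Agent.P.MP_2c2d1a_pr.Fin
import Pool.Agent.P.MP_2c2d1a_pr.Prob

open MeasureTheory Filter Topology
open scoped ENNReal

namespace Pool.Agent.Results.MP_2c2d1a_pr.Skeleton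

open PV2c

/-- In every dimension `d = n + 1 ≥ 3` and for every intensity, the 1-skeleton of the
Poisson-Voronoi tessellation of hyperbolic space is almost surely connected and regular of
degree `d + 1`, and for every `α > 1 / 2` every vertex lies in arbitrarily large connected sets
`S` with at most `|S| ^ α` boundary edges. -/
theorem result (n : ℕ) (hn : 2 ≤ n) (lam : ℝ) (hlam : 0 < lam)
    (Ω : Type) [MeasurableSpace Ω] (P : Measure Ω) [IsProbabilityMeasure P]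
    (Z : Ω → Set (Hyp n)) (hZ : IsPPP P Z (ENNReal.ofReal lam • hvol n)) :
    ∀ᵐ ω ∂P, (skeleton (Z ω)).Connected ∧
      (∀ v, ((skeleton (Z ω)).neighborSet v).encard = (n + 2 : ℕ)) ∧
      ∀ α : ℝ, 1 / 2 < α → ∀ ρ (m : ℕ), ∃ S : Finset {y // IsFace (Z ω) {y}}, ρ ∈ S ∧
        ((skeleton (Z ω)).induce (S : Set _)).Connected ∧ m ≤ S.card ∧
        (ebdry (skeleton (Z ω)) S : ℝ≥0∞) ≤ (S.card : ℝ≥0∞) ^ α := by
  filter_upwards [sk_asm sPoly sReg sCon sCnt sIn1 sIn2 sIn3 sCamp sNull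
    (sDet bClu bDis bNet bPath (bConn bGen)) sPar bFin (bProb bVol bOne bInd bMany bDis bNet)
    n hn lam hlam Ω P Z hZ] with ω hω
  exact edge_skel hω.1 (fun V G => G.Connected ∧ (∀ v, (G.neighborSet v).encard = (n + 2 : ℕ)) ∧
    ∀ α : ℝ, 1 / 2 < α → ∀ ρ (m : ℕ), ∃ S : Finset V, ρ ∈ S ∧
      (G.induce (S : Set V)).Connected ∧ m ≤ S.card ∧
      (ebdry G S : ℝ≥0∞) ≤ (S.card : ℝ≥0∞) ^ α) ⟨hω.2.1, hω.2.2.1, hω.2.2.2.2.2⟩

/-- The special case in the words of the problem: the skeleton is infinite and its anchored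
expansion constant is zero. -/
theorem no_expansion (n : ℕ) (hn : 2 ≤ n) (lam : ℝ) (hlam : 0 < lam)
    (Ω : Type) [MeasurableSpace Ω] (P : Measure Ω) [IsProbabilityMeasure P]
    (Z : Ω → Set (Hyp n)) (hZ : IsPPP P Z (ENNReal.ofReal lam • hvol n)) :
    ∀ᵐ ω ∂P, Infinite {y // IsFace (Z ω) {y}} ∧
      ∀ ρ, Tendsto (isoInf (skeleton (Z ω)) ρ) atTop (𝓝 0) := by
  filter_upwards [sk_asm sPoly sReg sCon sCnt sIn1 sIn2 sIn3 sCamp sNull
    (sDet bClu bDis bNet bPath (bConn bGen)) sPar bFin (bProb bVol bOne bInd bMany bDis bNet)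
    n hn lam hlam Ω P Z hZ] with ω hω
  exact edge_skel hω.1 (fun V G => Infinite V ∧ ∀ ρ, Tendsto (isoInf G ρ) atTop (𝓝 0))
    ⟨hω.2.2.2.1, hω.2.2.2.2.1⟩

end Pool.Agent.Results.MP_2c2d1a_pr.Skeleton
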